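import Pool.Agent.Lib.MP_c8ac39_lc.MH.Glue

/-!
Relative to one Mahlo cardinal, it is consistent with ZFC that there is a Mahlo cardinal `k`
such that the Halpern-Lauchli statement, in all finite dimensions and for fewer than `m`
colours, holds at every Mahlo cardinal `m ≤ k`.
-/

namespace Pool.Agent.Results.MP_c8ac39_lc.MahloStrength

open Pool.Agent.Lib.MP_2739cb_lc Pool.Agent.Lib.MP_c8ac39_lc Pool.Agent.Lib.MP_c8ac39_lc.MH

universe u

theorem result (κ : Cardinal.{u}) (hκ : IsMahlo κ) :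
    ∃ (M : Type (u + 1)) (E : M → M → Prop), IsZFC E ∧ ∃ k : M, IsMahloIn E k ∧
      ∀ m : M, (m = k ∨ E m k ∧ IsMahloIn E m) →
        ∀ δ σ : M, IsFinOrd E δ → (∃ x, E x δ) → E σ m → (∃ x, E x σ) → HL E δ σ m :=
  mainB hκ

end Pool.Agent.Results.MP_c8ac39_lc.MahloStrength
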