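import Pool.Agent.Lib.MP_c8ac39_lc.WF.Main

/-!
A transitive model of ZFC that contains a transitive model of the first theory (in all finite
dimensions) and no transitive model of the second theory.
-/

namespace Pool.Agent.Results.MP_c8ac39_lc.TransitiveGap

open Pool.Agent.Lib.MP_f9eb18_lc Pool.Agent.Lib.MP_f9eb18_lc.W Pool.Agent.Lib.MP_c8ac39_lc.WF

theorem result (d : ℕ) (hd : 2 ≤ d) (U : Set V) (hU : T2 d U) :
    ∃ W : Set V, IsZFC W ∧ (∃ N ∈ W, T1 (N : Set V)) ∧ ¬ ∃ N ∈ W, T2 d (N : Set V) :=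
  main d hd U hU

end Pool.Agent.Results.MP_c8ac39_lc.TransitiveGap
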